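import Pool.Agent.U707.LI.StmP
import Pool.Agent.W352.ChAbs.Cnt

/-! Sets of density zero. -/

set_option autoImplicit false

open NumberField Filter Topology IsDedekindDomain Module Pool.Agent.W401.Cheb

namespace Pool.Agent.U707.LI

variable {K : Type} [Field K] [NumberField K]

theorem densityZero_union {B B' : Set (HeightOneSpectrum (𝓞 K))} (hB : DensityZero B)
    (hB' : DensityZero B') : DensityZero (B ∪ B') := by
  intro ε hε
  filter_upwards [hB (ε / 2) (by positivity), hB' (ε / 2) (by positivity)] with N h1 h2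
  have hfin : ∀ X : Set (HeightOneSpectrum (𝓞 K)),
      {v : HeightOneSpectrum (𝓞 K) | Ideal.absNorm v.asIdeal ≤ N ∧ v ∈ X}.Finite := fun X =>
    (Pool.Agent.W352.ChAbs.finite_le (K := K) N).subset fun v hv => hv.1
  have hcard : ∀ X : Set (HeightOneSpectrum (𝓞 K)),
      Nat.card {v : HeightOneSpectrum (𝓞 K) // Ideal.absNorm v.asIdeal ≤ N ∧ v ∈ X} =
      {v : HeightOneSpectrum (𝓞 K) | Ideal.absNorm v.asIdeal ≤ N ∧ v ∈ X}.ncard := fun X => rfl
  have h4 : {v : HeightOneSpectrum (𝓞 K) | Ideal.absNorm v.asIdeal ≤ N ∧ v ∈ B ∪ B'} ⊆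
      {v : HeightOneSpectrum (𝓞 K) | Ideal.absNorm v.asIdeal ≤ N ∧ v ∈ B} ∪
      {v : HeightOneSpectrum (𝓞 K) | Ideal.absNorm v.asIdeal ≤ N ∧ v ∈ B'} := by
    rintro v ⟨h5, h6 | h6⟩
    · exact Or.inl ⟨h5, h6⟩
    · exact Or.inr ⟨h5, h6⟩
  have h5 := (Set.ncard_le_ncard h4 ((hfin B).union (hfin B'))).trans (Set.ncard_union_le _ _)
  rw [hcard] at h1 h2 ⊢
  have h6 : (({v : HeightOneSpectrum (𝓞 K) | Ideal.absNorm v.asIdeal ≤ N ∧
      v ∈ B ∪ B'}.ncard : ℕ) : ℝ) ≤
      ({v : HeightOneSpectrum (𝓞 K) | Ideal.absNorm v.asIdeal ≤ N ∧ v ∈ B}.ncard : ℝ) +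
      ({v : HeightOneSpectrum (𝓞 K) | Ideal.absNorm v.asIdeal ≤ N ∧ v ∈ B'}.ncard : ℝ) := by
    exact_mod_cast h5
  linarith

theorem densityZero_iUnion {ι : Type} [Fintype ι] {D : ι → Set (HeightOneSpectrum (𝓞 K))}
    (hD : ∀ i, DensityZero (D i)) : DensityZero (⋃ i, D i) := by
  classical
  have h1 : ∀ s : Finset ι, DensityZero (⋃ i ∈ s, D i) := by
    intro s
    induction s using Finset.induction_on with
    | empty =>
      intro ε hε
      refine Filter.Eventually.of_forall fun N => ?_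
      have : IsEmpty {v : HeightOneSpectrum (𝓞 K) // Ideal.absNorm v.asIdeal ≤ N ∧
          v ∈ ⋃ i ∈ (∅ : Finset ι), D i} := ⟨fun v => by simpa using v.2.2⟩
      rw [Nat.card_of_isEmpty, Nat.cast_zero]
      positivity
    | insert a s _ ih =>
      rw [Finset.set_biUnion_insert]
      exact densityZero_union (hD a) ih
  have h2 := h1 Finset.univ
  simpa using h2

end Pool.Agent.U707.LI
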