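import Pool.Agent.U707.LI.Weight

/-! Point counts and all the conjugates of a system. -/

set_option autoImplicit false

open NumberField Filter Topology IsDedekindDomain Module Pool.Agent.W401.Cheb

namespace Pool.Agent.U707.LI

/-- the theorem on the sum of the conjugate systems and the degree of the cohomology -/
theorem conjCount (hH : S_HAAR) (hC : S_CHEB) (hT : S_TRANS) (hI : S_IND) (hF : S_FR) {K : Type}
    [Field K] [NumberField K] {E : Type} [NormedField E] [IsAlgClosed E] [CharZero E]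
    (θ : E ≃+* ℂ) {T : Type} [Fintype T] (R : T → Rep K E) (w : ℤ)
    (hR : ∀ t, (R t).StronglyIrreducible) (hRw : ∀ t, (R t).IsPure θ w)
    (hne : ∀ t t', t ≠ t' → ∀ U : Subgroup (GK K), IsOpen (U : Set (GK K)) →
      ¬ SubquotOn U (R t).ρ (R t').ρ)
    {κ : Type} [Fintype κ] (d : κ → ℕ) (H : κ → ℕ → Rep K E)
    (hH' : ∀ k, ∀ j : ℕ, (H k j).IsPure θ j)
    (cnt : κ → HeightOneSpectrum (𝓞 K) → ℤ)
    (hcnt : ∃ B : Set (HeightOneSpectrum (𝓞 K)), B.Finite ∧ ∀ v ∉ B, ∀ φ, GeoFrob v φ → ∀ k,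
      (cnt k v : E) = ∑ j ∈ Finset.range (2 * d k + 1), (-1) ^ j * (H k j).tr φ)
    (a : HeightOneSpectrum (𝓞 K) → ℚ)
    (ha : ∃ B : Set (HeightOneSpectrum (𝓞 K)), B.Finite ∧ ∀ v ∉ B, ∀ φ, GeoFrob v φ →
      ∑ t, (R t).tr φ = (a v : E)) (c : κ → ℚ)
    {P : Set (HeightOneSpectrum (𝓞 K))} (hP : PosDensity P)
    (h : ∀ v ∈ P, a v = ∑ k, c k * cnt k v) (t : T) :
    ∃ k, c k ≠ 0 ∧ ∃ j ≤ 2 * d k, (j : ℤ) = w ∧ ∃ U : Subgroup (GK K), U.Normal ∧
      IsOpen (U : Set (GK K)) ∧ SubquotOn ⊤ (R t).ρ (perm U (H k j).ρ) := by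
  classical
  obtain ⟨B, hB, hcnt⟩ := hcnt
  obtain ⟨B', hB', ha⟩ := ha
  have hP' : PosDensity (P \ (B ∪ B')) :=
    hP.mono (hB.union hB') fun v hv hvB => ⟨hv, hvB⟩
  obtain ⟨x, hc, U, hUn, hUo, hsU, hs⟩ := geo hH hC hT hI hF (R t) (hR t)
    (fun x : {t' : T // t' ≠ t} ⊕ (Σ k, Fin (2 * d k + 1)) =>
      Sum.elim (fun t' => R t'.1) (fun x => H x.1 x.2) x)
    (fun x => Sum.elim (fun _ => (-1 : E)) (fun x => (c x.1 : E) * (-1) ^ (x.2 : ℕ)) x) hP' (by
      rintro v ⟨hv, hvB⟩ φ hφ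
      rw [Fintype.sum_sum_type]
      simp only [Sum.elim_inl, Sum.elim_inr]
      have h1 := ha v (fun h => hvB (Or.inr h)) φ hφ
      have h2 : ∑ t', (R t').tr φ = (R t).tr φ + ∑ t' : {t' : T // t' ≠ t}, (R t'.1).tr φ := by
        rw [← Finset.add_sum_erase Finset.univ _ (Finset.mem_univ t)]
        congr 1
        exact (Finset.sum_subtype (Finset.univ.erase t) (fun x => by simp) _)
      rw [h2, h v hv] at h1
      push_cast at h1
      have h3 : ∑ x : Σ k, Fin (2 * d k + 1), (c x.1 : E) * (-1) ^ (x.2 : ℕ) *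
          (H x.1 x.2).tr φ = ∑ k, (c k : E) * (cnt k v : E) := by
        rw [Fintype.sum_sigma]
        refine Finset.sum_congr rfl fun k _ => ?_
        rw [hcnt v (fun h => hvB (Or.inl h)) φ hφ k, Finset.mul_sum, Finset.sum_range]
        refine Finset.sum_congr rfl fun j _ => ?_
        ring
      rw [h3, ← h1]
      simp only [neg_one_mul, Finset.sum_neg_distrib]
      ring)
  rcases x with t' | ⟨k, j⟩
  · exact absurd hsU (hne t t'.1 (fun h => t'.2 h.symm) U hUo)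
  · simp only [Sum.elim_inr] at hc hsU hs
    have := hUn
    refine ⟨k, fun h0 => hc (by rw [h0, Rat.cast_zero, zero_mul]), j, by have := j.2; omega,
      ?_, U, hUn, hUo, hs⟩
    exact (weight_eq θ (R t) (H k j) (hR t).1 (hRw t) (hH' k j) hP U hUo hsU).symm

end Pool.Agent.U707.LI
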