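import Pool.Agent.W401.Cheb.AbsDefs

/-!
# Linear independence of representations on sets of places of positive upper density: statements
-/

set_option autoImplicit false

open NumberField Filter Topology IsDedekindDomain Module Pool.Agent.W401.Cheb

namespace Pool.Agent.U707.LI

section
variable {G E V W : Type} [Group G] [Field E] [AddCommGroup V] [Module E V] [AddCommGroup W]
  [Module E W]

/-- The restriction of the representation `ρ` to the subgroup `H` is isomorphic to a subquotient of
the restriction of the representation `σ`: there is a linear map `f` from a subspace `B` of `W`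
onto `V`, such that `B` is stable under `H` and `f` commutes with `H`. -/
def SubquotOn (H : Subgroup G) (ρ : G →* Module.End E V) (σ : G →* Module.End E W) : Prop :=
  ∃ (B : Submodule E W) (f : B →ₗ[E] V), Function.Surjective f ∧
    ∀ g ∈ H, ∀ x : B, ∃ y : B, (y : W) = σ g x ∧ f y = ρ g (f x)

/-- The endomorphisms `ρ(h)`, `h ∈ H`, generate the space of all endomorphisms. -/
def Full (H : Subgroup G) (ρ : G →* Module.End E V) : Prop :=
  Submodule.span E (ρ '' (H : Set G)) = ⊤

/-- The representation of `G` on the functions `f : G / H → W`, with `(g f)(x) = g (f (g⁻¹ x))`: the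
tensor product of `σ` and the permutation representation of `G` on `G / H`. -/
def perm (H : Subgroup G) (σ : G →* Module.End E W) : G →* Module.End E (G ⧸ H → W) where
  toFun g :=
    { toFun := fun f x => σ g (f (g⁻¹ • x))
      map_add' := fun f f' => by
        funext x
        exact map_add _ _ _
      map_smul' := fun a f => by
        funext x
        exact map_smul _ _ _ }
  map_one' := by
    ext f x
    simp
  map_mul' g g' := by
    ext f x
    simp [mul_smul]

end

/-- **HAAR.** A closed set whose images in the finite quotients are not small almost contains a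
coset. -/
def S_HAAR : Prop := ∀ (G : Type) [Group G] [TopologicalSpace G] [IsTopologicalGroup G]
  [CompactSpace G] [T2Space G] [TotallyDisconnectedSpace G] (C : Set G), IsClosed C →
  ∀ δ : ℝ, 0 < δ → (∀ U : Subgroup G, U.Normal → IsOpen (U : Set G) →
    δ * Nat.card (G ⧸ U) ≤ (((QuotientGroup.mk : G → G ⧸ U) '' C).ncard : ℝ)) →
  ∀ m : ℕ, ∃ (g : G) (U : Subgroup G), U.Normal ∧ IsOpen (U : Set G) ∧
    ∀ h : Fin m → G, (∀ j, h j ∈ U) → ∃ u ∈ U, ∀ j, g * h j * u ∈ C

/-- **CHEB.** Chebotarev for sets of places of positive upper density. -/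
def S_CHEB : Prop := ∀ (K : Type) [Field K] [NumberField K] (C : Set (GK K)),
  (∀ g ∈ C, ∀ x : GK K, x * g * x⁻¹ ∈ C) → ∀ (P : Set (HeightOneSpectrum (𝓞 K))) (δ : ℝ),
  (∃ᶠ N : ℕ in atTop, δ ≤ dens (fun v => v ∈ P) N) → (∀ v ∈ P, ∃ g ∈ C, IsFrob v g) →
  ∀ U : Subgroup (GK K), U.Normal → IsOpen (U : Set (GK K)) →
    δ * Nat.card (GK K ⧸ U) ≤ (((QuotientGroup.mk : GK K → GK K ⧸ U) '' C).ncard : ℝ)

/-- **TRANS.** Finitely many translates suffice. -/
def S_TRANS : Prop := ∀ (G E : Type) [Group G] [Field E] (ι : Type) [Fintype ι] (V : ι → Type)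
  [∀ i, AddCommGroup (V i)] [∀ i, Module E (V i)] [∀ i, FiniteDimensional E (V i)]
  (ρ : ∀ i, G →* Module.End E (V i)) (c : ι → E),
  ∃ m : ℕ, ∀ (x : G) (U : Subgroup G), ∃ h : Fin m → G, (∀ j, h j ∈ U) ∧
    ∀ u : G, (∀ j, ∑ i, c i * LinearMap.trace E (V i) (ρ i (u * h j * x)) = 0) →
      ∀ y ∈ U, ∑ i, c i * LinearMap.trace E (V i) (ρ i (u * y * x)) = 0

/-- **IND.** Linear independence on a coset. -/
def S_IND : Prop := ∀ (G E : Type) [Group G] [Field E] (H : Subgroup G) [H.Normal]
  (V : Type) [AddCommGroup V] [Module E V] [FiniteDimensional E V] [Nontrivial V]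
  (ρ : G →* Module.End E V) (ι : Type) [Fintype ι] (W : ι → Type)
  [∀ i, AddCommGroup (W i)] [∀ i, Module E (W i)] [∀ i, FiniteDimensional E (W i)]
  (σ : ∀ i, G →* Module.End E (W i)) (c : ι → E) (g : G), Full H ρ →
  (∀ h ∈ H, LinearMap.trace E V (ρ (g * h)) =
    ∑ i, c i * LinearMap.trace E (W i) (σ i (g * h))) →
  ∃ i, c i ≠ 0 ∧ SubquotOn H ρ (σ i)

/-- **TW.** Representations of the same dimension which agree on `H` are twists. -/
def S_TW : Prop := ∀ (G E : Type) [Group G] [Field E] (H : Subgroup G) [H.Normal]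
  (V W : Type) [AddCommGroup V] [Module E V] [FiniteDimensional E V] [Nontrivial V]
  [AddCommGroup W] [Module E W] [FiniteDimensional E W]
  (ρ : G →* Module.End E V) (σ : G →* Module.End E W), Full H ρ → SubquotOn H ρ σ →
  finrank E W = finrank E V →
  ∃ (χ : G →* Eˣ) (e : W ≃ₗ[E] V), (∀ h ∈ H, χ h = 1) ∧
    ∀ g x, e (σ g x) = (χ g : E) • ρ g (e x)

/-- **FR.** Frobenius reciprocity. -/
def S_FR : Prop := ∀ (G E : Type) [Group G] [Field E] (H : Subgroup G) [H.FiniteIndex]
  (V W : Type) [AddCommGroup V] [Module E V]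
  [AddCommGroup W] [Module E W] (ρ : G →* Module.End E V) (σ : G →* Module.End E W),
  SubquotOn H ρ σ → SubquotOn ⊤ ρ (perm H σ)

end Pool.Agent.U707.LI
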