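import Pool.Agent.W401.Cheb.AbsDefs

/-!
# Representations mod `p` and arbitrary forms: statements
-/

set_option autoImplicit false

open NumberField Filter Topology IsDedekindDomain Module Pool.Agent.W401.Cheb

namespace Pool.Agent.U707.LI

/-- `T` is a pseudorepresentation of dimension two of the group `G` with values in `A`. -/
structure IsPseudo {G A : Type} [Group G] [CommRing A] (T : G → A) : Prop where
  one : T 1 = 2
  comm : ∀ g h, T (g * h) = T (h * g)
  rel : ∀ g h l, T g * T h * T l + T (g * h * l) + T (g * l * h) =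
    T (g * h) * T l + T (g * l) * T h + T (h * l) * T g

/-- The set `B` of places has density zero: for `ε > 0` it has at most `ε π(N)` places of norm at
most `N`, for all large `N`. -/
def DensityZero {K : Type} [Field K] [NumberField K] (B : Set (HeightOneSpectrum (𝓞 K))) : Prop :=
  ∀ ε : ℝ, 0 < ε → ∀ᶠ N : ℕ in atTop,
    (Nat.card {v : HeightOneSpectrum (𝓞 K) // Ideal.absNorm v.asIdeal ≤ N ∧ v ∈ B} : ℝ) ≤
      ε * Nat.primeCounting N

/-- **ALG.** -/
def S_ALG : Prop := ∀ (G k A V : Type) [Group G] [Field k] [IsAlgClosed k] [CommRing A]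
  [Algebra k A] [FiniteDimensional k A] [AddCommGroup V] [Module k V] (T : G → A)
  (ρ : G →* Module.End k V) (l : A →ₗ[k] k), (2 : k) ≠ 0 → IsPseudo T → finrank k V = 2 →
  Submodule.span k (Set.range ρ) = ⊤ → (∀ g, LinearMap.trace k V (ρ g) = l (T g)) →
  ∃ φ : A →ₐ[k] k, ∀ g, φ (T g) = LinearMap.trace k V (ρ g)

/-- **CHD.** -/
def S_CHD : Prop := ∀ (K k : Type) [Field K] [NumberField K] [Zero k] (f : GK K → k),
  (∀ g x : GK K, f (x * g * x⁻¹) = f g) →
  (∃ U : Subgroup (GK K), IsOpen (U : Set (GK K)) ∧ ∀ g, ∀ u ∈ U, f (g * u) = f g) →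
  ∀ B : Set (HeightOneSpectrum (𝓞 K)), DensityZero B →
  (∀ v ∉ B, ∀ σ, IsFrob v σ → f σ = 0) → ∀ g, f g = 0

/-- **EIG.** -/
def S_EIG : Prop := ∀ (k M : Type) [Field k] [AddCommGroup M] [Module k M]
  [FiniteDimensional k M] (A : Subalgebra k (Module.End k M)),
  (∀ a ∈ A, ∀ b ∈ A, a * b = b * a) → ∀ φ : A →ₐ[k] k,
  ∃ x : M, x ≠ 0 ∧ ∀ a : A, (a : Module.End k M) x = φ a • x

end Pool.Agent.U707.LI
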