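import Pool.Agent.U707.LI.Geo
import Pool.Agent.U187.LI.TRANS
import Pool.Agent.U94.LI.TW
import Pool.Agent.U200.LI.FR
import Pool.Agent.U140.LI.HAAR
import Pool.Agent.U612.LI.IND
import Pool.Agent.U784.LI.CHEB

/-! The packages of project LI, by helper140 (HAAR), helper784 (CHEB), helper187 (TRANS), helper612 (IND),
helper94 (TW), helper200 (FR). -/

set_option autoImplicit false

namespace Pool.Agent.U707.LI

theorem sHAAR : S_HAAR := Pool.Agent.U140.LI.t_HAAR

theorem sTRANS : S_TRANS := Pool.Agent.U187.LI.t_TRANS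

theorem sIND : S_IND := Pool.Agent.U612.LI.t_IND

theorem sTW : S_TW := Pool.Agent.U94.LI.t_TW

theorem sFR : S_FR := Pool.Agent.U200.LI.t_FR

theorem sCHEB : S_CHEB := Pool.Agent.U784.LI.t_CHEB

end Pool.Agent.U707.LI
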