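import Pool.Agent.U707.LI.Many
import Pool.Agent.U707.LI.StmL
import Pool.Agent.W401.Cheb.Frob
import Pool.Agent.K1H20.PA.B1
import Pool.Agent.U141.LI.ALG
import Pool.Agent.U851.LIP.CHD
import Pool.Agent.U591.LI.EIG

/-! The packages of project LI mod `p`, by helper141 (ALG), helper851 (CHD), helper591 (EIG). -/

set_option autoImplicit false

open NumberField Filter Topology IsDedekindDomain Module Pool.Agent.W401.Cheb

namespace Pool.Agent.U707.LI

/-- Representations mod `p`, continuous for the discrete topology, which are irreducible. -/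
structure ModPRep (K k : Type) [Field K] [Field k] where
  /-- the space -/
  V : Type
  [addCommGroup : AddCommGroup V]
  [module : Module k V]
  /-- the action -/
  ρ : GK K →* Module.End k V
  two : finrank k V = 2
  cont : LocConst ρ
  irr : ∀ X : Submodule k V, (∀ g, ∀ x ∈ X, ρ g x ∈ X) → X = ⊥ ∨ X = ⊤

attribute [instance] ModPRep.addCommGroup ModPRep.module

/-- the trace of `g` -/
noncomputable def ModPRep.tr {K k : Type} [Field K] [Field k] (R : ModPRep K k) (g : GK K) : k :=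
  LinearMap.trace k R.V (R.ρ g)

/-- the Hecke algebra: the algebra of endomorphisms of `M` generated by the `H v`, `v` not in `S` -/
abbrev Hecke {K k M : Type} [Field K] [NumberField K] [Field k] [AddCommGroup M] [Module k M]
    (S : Set (HeightOneSpectrum (𝓞 K))) (H : HeightOneSpectrum (𝓞 K) → Module.End k M) :
    Subalgebra k (Module.End k M) := Algebra.adjoin k (H '' Sᶜ)

theorem ModPRep.full {K k : Type} [Field K] [Field k] [IsAlgClosed k] (R : ModPRep K k) :
    Submodule.span k (Set.range R.ρ) = ⊤ := by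
  have h0 : 0 < finrank k R.V := by
    rw [R.two]
    norm_num
  have hfd : FiniteDimensional k R.V := Module.finite_of_finrank_pos h0
  have : Nontrivial R.V := Module.finrank_pos_iff.1 h0
  have h1 := Pool.Agent.K1H20.PA.burnside (L := k) (V := R.V) (MonoidHom.mrange R.ρ) (by
    intro X hX
    refine R.irr X fun g x hx => hX _ ?_ x hx
    exact ⟨g, rfl⟩)
  exact h1

theorem modPThm {K : Type} [Field K] [NumberField K] {k : Type} [Field k] [IsAlgClosed k]
    (h2 : (2 : k) ≠ 0) (R : ModPRep K k)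
    {M : Type} [AddCommGroup M] [Module k M] [FiniteDimensional k M]
    (S : Set (HeightOneSpectrum (𝓞 K))) (H : HeightOneSpectrum (𝓞 K) → Module.End k M)
    (hH : HasGalois S H) (c : M) (l : M →ₗ[k] k)
    {B : Set (HeightOneSpectrum (𝓞 K))} (hB : DensityZero B)
    (h : ∀ v ∉ B, v ∉ S ∧ ∀ σ, IsFrob v σ → R.tr σ = l (H v c)) :
    ∃ c' : M, c' ≠ 0 ∧ ∀ v ∉ S, ∀ σ, IsFrob v σ → H v c' = R.tr σ • c' :=
  modP Pool.Agent.U141.LIP.t_ALG Pool.Agent.U851.LIP.t_CHD Pool.Agent.U591.LIP.t_EIG h2 R.two R.ρ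
    R.cont R.full S H hH c l hB h

theorem two_ne_zero' {p : ℕ} [Fact p.Prime] (hp : p ≠ 2) : (2 : AlgebraicClosure (ZMod p)) ≠ 0 := by
  intro h0
  have h1 : ((2 : ℕ) : AlgebraicClosure (ZMod p)) = 0 := by exact_mod_cast h0
  have h3 := (CharP.cast_eq_zero_iff (AlgebraicClosure (ZMod p)) p 2).1 h1
  exact hp ((Nat.prime_dvd_prime_iff_eq Fact.out Nat.prime_two).1 h3)

theorem modPSum {K : Type} [Field K] [NumberField K] {k : Type} [Field k] [IsAlgClosed k]
    (h2 : (2 : k) ≠ 0) (R : ModPRep K k) {J : Type} [Fintype J]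
    {M : J → Type} [∀ j, AddCommGroup (M j)] [∀ j, Module k (M j)]
    [∀ j, FiniteDimensional k (M j)]
    {S : Set (HeightOneSpectrum (𝓞 K))} (hS : DensityZero S)
    (H : ∀ j, HeightOneSpectrum (𝓞 K) → Module.End k (M j))
    (hH : ∀ j, HasGalois S (H j)) (c : ∀ j, M j) (l : ∀ j, M j →ₗ[k] k)
    {B : Set (HeightOneSpectrum (𝓞 K))} (hB : DensityZero B)
    (h : ∀ v ∉ B, v ∉ S ∧ ∀ σ, IsFrob v σ → R.tr σ = ∑ j, l j (H j v (c j))) :
    ∃ j, ∃ c' : M j, c' ≠ 0 ∧ ∀ v ∉ S, ∀ σ, IsFrob v σ → H j v c' = R.tr σ • c' := by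
  classical
  obtain ⟨x, hx, hx'⟩ := modPThm h2 R S (fun v => diag fun j => H j v)
    (hasGalois_pi Pool.Agent.U851.LIP.t_CHD hS H hH) c
    (∑ j, (l j).comp (LinearMap.proj j)) hB (fun v hv => ⟨(h v hv).1, fun σ hσ => by
      rw [(h v hv).2 σ hσ, LinearMap.sum_apply]
      rfl⟩)
  obtain ⟨j, hj⟩ : ∃ j, x j ≠ 0 := by
    by_contra hcon
    push Not at hcon
    exact hx (funext hcon)
  exact ⟨j, x j, hj, fun v hv σ hσ => congrFun (hx' v hv σ hσ) j⟩

theorem modPManyThm {K : Type} [Field K] [NumberField K] {k : Type} [Field k] [IsAlgClosed k]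
    (h2 : (2 : k) ≠ 0) {ι : Type} [Fintype ι] (R : ι → ModPRep K k) (m : ι → k)
    (hm : ∀ i, m i ≠ 0) (hne : ∀ i j, i ≠ j → ∃ g, (R i).tr g ≠ (R j).tr g)
    {M : Type} [AddCommGroup M] [Module k M] [FiniteDimensional k M]
    (S : Set (HeightOneSpectrum (𝓞 K))) (H : HeightOneSpectrum (𝓞 K) → Module.End k M)
    (hH : HasGalois S H) (c : M) (l : M →ₗ[k] k)
    {B : Set (HeightOneSpectrum (𝓞 K))} (hB : DensityZero B)
    (h : ∀ v ∉ B, v ∉ S ∧ ∀ σ, IsFrob v σ → ∑ i, m i * (R i).tr σ = l (H v c)) (i : ι) :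
    ∃ c' : M, c' ≠ 0 ∧ ∀ v ∉ S, ∀ σ, IsFrob v σ → H v c' = (R i).tr σ • c' :=
  modPMany Pool.Agent.U141.LIP.t_ALG Pool.Agent.U851.LIP.t_CHD Pool.Agent.U591.LIP.t_EIG h2
    (fun i => (R i).two) (fun i => (R i).ρ) (fun i => (R i).cont) (fun i => (R i).full) m hm hne S
    H hH c l hB h i

end Pool.Agent.U707.LI
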