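import Pool.Agent.U707.LI.Fin

/-! Sums of conjugate systems and twists. -/

set_option autoImplicit false

open NumberField Filter Topology IsDedekindDomain Module Pool.Agent.W401.Cheb

namespace Pool.Agent.U707.LI

/-- two representations of the same dimension, one a subquotient of the other on an open subgroup -/
theorem twist_of_subquot (hTW : S_TW) {K : Type} [Field K] {E : Type} [NormedField E]
    [IsAlgClosed E] (R W : Rep K E) (hR : R.StronglyIrreducible)
    (hd : finrank E W.V = finrank E R.V) (U : Subgroup (GK K)) [U.Normal]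
    (hUo : IsOpen (U : Set (GK K))) (hs : SubquotOn U R.ρ W.ρ) :
    ∃ χ : GK K →* Eˣ, IsOpen (χ.ker : Set (GK K)) ∧ (∀ g, W.tr g = χ g * R.tr g) ∧
      ∀ g, LinearMap.det (W.ρ g) = (χ g : E) ^ finrank E R.V * LinearMap.det (R.ρ g) := by
  have := R.nontriv hR
  obtain ⟨χ, e, hχ, he⟩ := hTW (GK K) E U R.V W.V R.ρ W.ρ (R.full hR U hUo) hs hd
  have hconj : ∀ g, e.conj (W.ρ g) = (χ g : E) • R.ρ g := by
    intro g
    ext y
    rw [LinearEquiv.conj_apply, LinearMap.comp_apply, LinearMap.comp_apply, LinearEquiv.coe_coe,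
      LinearEquiv.coe_coe, he, LinearEquiv.apply_symm_apply, LinearMap.smul_apply]
  refine ⟨χ, Subgroup.isOpen_mono (fun h hh => ?_) hUo, fun g => ?_, fun g => ?_⟩
  · exact hχ h hh
  · have h1 := LinearMap.trace_conj' (W.ρ g) e
    rw [hconj, map_smul, smul_eq_mul] at h1
    exact h1.symm
  · have h1 := LinearMap.det_conj (W.ρ g) e
    have h2 : (e : W.V →ₗ[E] R.V) ∘ₗ W.ρ g ∘ₗ (e.symm : R.V →ₗ[E] W.V) =
        (χ g : E) • R.ρ g := by
      rw [← hconj]
      rfl
    rw [h2, LinearMap.det_smul] at h1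
    exact h1.symm

theorem conjTwist (hH : S_HAAR) (hC : S_CHEB) (hT : S_TRANS) (hI : S_IND) (hTW : S_TW) {K : Type}
    [Field K] [NumberField K] {E : Type} [NormedField E] [IsAlgClosed E]
    {T : Type} [Fintype T] (R : T → Rep K E) (hR : ∀ t, (R t).StronglyIrreducible)
    (hne : ∀ t t', t ≠ t' → ∀ U : Subgroup (GK K), IsOpen (U : Set (GK K)) →
      ¬ SubquotOn U (R t).ρ (R t').ρ)
    {ι : Type} [Fintype ι] (W : ι → Rep K E) (c : ι → E)
    (hd : ∀ t i, finrank E (W i).V = finrank E (R t).V)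
    {P : Set (HeightOneSpectrum (𝓞 K))} (hP : PosDensity P)
    (h : ∀ v ∈ P, ∀ φ, GeoFrob v φ → ∑ t, (R t).tr φ = ∑ i, c i * (W i).tr φ) (t : T) :
    ∃ i, c i ≠ 0 ∧ ∃ χ : GK K →* Eˣ, IsOpen (χ.ker : Set (GK K)) ∧
      (∀ g, (W i).tr g = χ g * (R t).tr g) ∧
      ∀ g, LinearMap.det ((W i).ρ g) =
        (χ g : E) ^ finrank E (R t).V * LinearMap.det ((R t).ρ g) := by
  classical
  have := (R t).nontriv (hR t)
  obtain ⟨x, hc, U, hUn, hUo, hs⟩ := indep hH hC hT hI (R t)
    (fun U hU => (R t).full (hR t) U hU)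
    (fun x : {t' : T // t' ≠ t} ⊕ ι => Sum.elim (fun t' => R t'.1) W x)
    (fun x => Sum.elim (fun _ => (-1 : E)) c x) hP (by
      intro v hv φ hφ
      rw [Fintype.sum_sum_type]
      simp only [Sum.elim_inl, Sum.elim_inr]
      have h1 := h v hv φ hφ
      have h2 : ∑ t', (R t').tr φ = (R t).tr φ + ∑ t' : {t' : T // t' ≠ t}, (R t'.1).tr φ := by
        rw [← Finset.add_sum_erase Finset.univ _ (Finset.mem_univ t)]
        congr 1
        exact (Finset.sum_subtype (Finset.univ.erase t) (fun x => by simp) _)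
      rw [h2] at h1
      rw [← h1]
      simp only [neg_one_mul, Finset.sum_neg_distrib]
      ring)
  rcases x with t' | i
  · exact absurd hs (hne t t'.1 (fun h => t'.2 h.symm) U hUo)
  · have := hUn
    obtain ⟨χ, h1, h2, h3⟩ := twist_of_subquot hTW (R t) (W i) (hR t) (hd t i) U hUo hs
    exact ⟨i, hc, χ, h1, h2, h3⟩

end Pool.Agent.U707.LI
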