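import Pool.Agent.U707.LI.Fin
import Pool.Agent.U707.LI.StmL

/-! `L`-functions of twists of two-dimensional representations. -/

set_option autoImplicit false

open NumberField Filter Topology IsDedekindDomain Module Pool.Agent.W401.Cheb

namespace Pool.Agent.U707.LI

variable {K : Type} [Field K] [NumberField K]

/-- a geometric Frobenius element at `v` -/
noncomputable def frob (v : HeightOneSpectrum (𝓞 K)) : GK K :=
  (Classical.choose (Pool.Agent.W401.Frob.exists_frob v))⁻¹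

theorem geoFrob_frob (v : HeightOneSpectrum (𝓞 K)) : GeoFrob v (frob v) := by
  unfold GeoFrob frob
  rw [inv_inv]
  exact Classical.choose_spec (Pool.Agent.W401.Frob.exists_frob v)

variable {p : ℕ} [Fact p.Prime]

/-- The `L`-function of the twist `R ⊗ χ` of the two-dimensional representation `R`, without the
Euler factors at the places in `S`, for the isomorphism `θ` of `ℚ̄_p` with `ℂ`: the product of
`(1 - θ(χ(φ) tr R(φ)) Nv^{-s} + θ(χ(φ)² det R(φ)) Nv^{-2s})⁻¹`, `φ` a Frobenius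
element at `v`. -/
noncomputable def twistL (θ : PadicAlgCl p ≃+* ℂ) (R : Rep K (PadicAlgCl p))
    (χ : GK K →* (PadicAlgCl p)ˣ) (S : Finset (HeightOneSpectrum (𝓞 K))) (s : ℂ) : ℂ :=
  ∏' v : {v : HeightOneSpectrum (𝓞 K) // v ∉ S},
    (1 - θ (χ (frob v.1) * R.tr (frob v.1)) * (Ideal.absNorm v.1.asIdeal : ℂ) ^ (-s)
      + θ ((χ (frob v.1) : PadicAlgCl p) ^ 2 * LinearMap.det (R.ρ (frob v.1)))
        * (Ideal.absNorm v.1.asIdeal : ℂ) ^ (-2 * s))⁻¹

/-- The `L`-function of `R ⊗ χ` has a meromorphic continuation (from `Re s > 3/2`) to `ℂ`, without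
the Euler factors at the places in `S`, for all sufficiently large finite sets `S`. -/
def TwistMeromorphic (θ : PadicAlgCl p ≃+* ℂ) (R : Rep K (PadicAlgCl p))
    (χ : GK K →* (PadicAlgCl p)ˣ) : Prop :=
  ∃ S₀ : Finset (HeightOneSpectrum (𝓞 K)), ∀ S : Finset (HeightOneSpectrum (𝓞 K)), S₀ ⊆ S →
    ∃ f : ℂ → ℂ, MeromorphicOn f Set.univ ∧ ∀ s : ℂ, 3 / 2 < s.re → f s = twistL θ R χ S s

theorem meroThm (hH : S_HAAR) (hC : S_CHEB) (hT : S_TRANS) (hI : S_IND) (hTW : S_TW)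
    (hLFC : S_LFC) (E : WeierstrassCurve K) (hE : E.IsElliptic)
    (M : HeightOneSpectrum (𝓞 K) → WeierstrassCurve (𝓞 K)) (hM : MinimalModels E M)
    (V : Rep K (PadicAlgCl p)) (hV2 : finrank (PadicAlgCl p) V.V = 2)
    (hV : V.StronglyIrreducible)
    (hEV : ∃ B : Set (HeightOneSpectrum (𝓞 K)), B.Finite ∧ ∀ v ∉ B, (M v).Δ ∉ v.asIdeal ∧
      ∀ φ, GeoFrob v φ → V.tr φ = av M v ∧
        LinearMap.det (V.ρ φ) = (Ideal.absNorm v.asIdeal : PadicAlgCl p))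
    (θ : PadicAlgCl p ≃+* ℂ) {ι : Type} [Fintype ι] (R : ι → Rep K (PadicAlgCl p))
    (hR2 : ∀ i, finrank (PadicAlgCl p) (R i).V = 2) (c : ι → PadicAlgCl p)
    {P : Set (HeightOneSpectrum (𝓞 K))} (hP : PosDensity P)
    (h : ∀ v ∈ P, ∀ φ, GeoFrob v φ → (av M v : PadicAlgCl p) = ∑ i, c i * (R i).tr φ)
    (hL : ∀ i, c i ≠ 0 → ∀ χ : GK K →* (PadicAlgCl p)ˣ, IsOpen (χ.ker : Set (GK K)) →
      (∀ g, (χ g : PadicAlgCl p) ^ 2 * LinearMap.det ((R i).ρ g) = LinearMap.det (V.ρ g)) →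
      TwistMeromorphic θ (R i) χ) :
    ∃ f : ℂ → ℂ, MeromorphicOn f Set.univ ∧ ∀ s : ℂ, 3 / 2 < s.re → f s = LSeries M s := by
  classical
  obtain ⟨B, hB, hEV⟩ := hEV
  have hP' : PosDensity (P \ B) := hP.mono hB fun v hv hvB => ⟨hv, hvB⟩
  obtain ⟨i, hi, χ, hχ, h1, h2⟩ := twist hH hC hT hI hTW V hV R c
    (fun i => (hR2 i).trans hV2.symm) hP' (by
      rintro v ⟨hv, hvB⟩ φ hφ
      rw [((hEV v hvB).2 φ hφ).1, h v hv φ hφ])
  rw [hV2] at h2
  have hker : ((χ⁻¹ : GK K →* (PadicAlgCl p)ˣ).ker : Set (GK K)) = (χ.ker : Set (GK K)) := by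
    ext g
    simp only [SetLike.mem_coe, MonoidHom.mem_ker, MonoidHom.inv_apply, inv_eq_one]
  have htr : ∀ g, ((χ⁻¹ : GK K →* (PadicAlgCl p)ˣ) g : PadicAlgCl p) * (R i).tr g = V.tr g := by
    intro g
    rw [h1 g, MonoidHom.inv_apply, ← mul_assoc, Units.inv_mul, one_mul]
  have hdet : ∀ g, ((χ⁻¹ : GK K →* (PadicAlgCl p)ˣ) g : PadicAlgCl p) ^ 2 *
      LinearMap.det ((R i).ρ g) = LinearMap.det (V.ρ g) := by
    intro g
    rw [h2 g, MonoidHom.inv_apply, ← mul_assoc, ← mul_pow, Units.inv_mul, one_pow, one_mul]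
  obtain ⟨S₀, hS₀⟩ := hL i hi χ⁻¹ (by rw [hker]; exact hχ) hdet
  obtain ⟨f, hf, hfs⟩ := hS₀ (S₀ ∪ hB.toFinset) Finset.subset_union_left
  refine hLFC K E hE M hM (S₀ ∪ hB.toFinset) f hf fun s hs => ?_
  rw [hfs s hs]
  unfold twistL
  refine tprod_congr fun v => ?_
  have hvB : v.1 ∉ B := fun hv => v.2 (Finset.mem_union_right _ (hB.mem_toFinset.2 hv))
  have h3 := (hEV v.1 hvB).2 _ (geoFrob_frob v.1)
  rw [htr, hdet, h3.1, h3.2, map_intCast, map_natCast]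
  unfold localFactor
  rw [if_neg (hEV v.1 hvB).1]

end Pool.Agent.U707.LI
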