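import Pool.Agent.U707.LI.Conj
import Pool.Agent.U707.LI.Twist
import Pool.Agent.U707.LI.All

/-! Definitions for the statements on abelian varieties of `GL_2`-type and on `L`-series. -/

set_option autoImplicit false

open NumberField Filter Topology IsDedekindDomain Module Pool.Agent.W401.Cheb

namespace Pool.Agent.U707.LI

section
variable {K : Type} [Field K] [NumberField K] {E : Type} [NormedField E]

/-- At almost all places `v` the traces of the Frobenius elements are `x v`. -/
def Rep.HasTraces (R : Rep K E) (x : HeightOneSpectrum (𝓞 K) → E) : Prop :=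
  ∃ B : Set (HeightOneSpectrum (𝓞 K)), B.Finite ∧ ∀ v ∉ B, ∀ φ, GeoFrob v φ → R.tr φ = x v

/-- The `V t` are of dimension two, irreducible on every open subgroup, and none is a subquotient of
another one on an open subgroup. -/
structure IndependentFamily {T : Type} (V : T → Rep K E) : Prop where
  two : ∀ t, finrank E (V t).V = 2
  irr : ∀ t, (V t).StronglyIrreducible
  ne : ∀ t t', t ≠ t' → ∀ U : Subgroup (GK K), IsOpen (U : Set (GK K)) →
    ¬ SubquotOn U (V t).ρ (V t').ρ

/-- `χ` is of finite order (its kernel is open), `tr R = χ tr V` and `det R = χ² det V`. -/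
structure IsTwist (R V : Rep K E) (χ : GK K →* Eˣ) : Prop where
  ker : IsOpen (χ.ker : Set (GK K))
  tr : ∀ g, R.tr g = χ g * V.tr g
  det : ∀ g, LinearMap.det (R.ρ g) = (χ g : E) ^ 2 * LinearMap.det (V.ρ g)

theorem hasTraces_all {ι : Type} [Fintype ι] {R : ι → Rep K E}
    {x : ι → HeightOneSpectrum (𝓞 K) → E} (h : ∀ i, (R i).HasTraces (x i)) :
    ∃ B : Set (HeightOneSpectrum (𝓞 K)), B.Finite ∧ ∀ v ∉ B, ∀ φ, GeoFrob v φ → ∀ i,
      (R i).tr φ = x i v := by
  choose B hB hB' using h
  refine ⟨⋃ i, B i, Set.finite_iUnion hB, fun v hv φ hφ i => hB' i v (fun h => ?_) φ hφ⟩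
  exact hv (Set.mem_iUnion.2 ⟨i, h⟩)

end

section
variable {K : Type} [Field K] [NumberField K] {p : ℕ} [Fact p.Prime]

/-- `V` is the representation on the first cohomology group of the elliptic curve with the minimal
models `M`: dimension two, and at almost all places `v` the reduction is good, the trace of
Frobenius is `a_v` and its determinant `Nv`. -/
def IsH1 (M : HeightOneSpectrum (𝓞 K) → WeierstrassCurve (𝓞 K)) (V : Rep K (PadicAlgCl p)) :
    Prop :=
  finrank (PadicAlgCl p) V.V = 2 ∧
    ∃ B : Set (HeightOneSpectrum (𝓞 K)), B.Finite ∧ ∀ v ∉ B, (M v).Δ ∉ v.asIdeal ∧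
      ∀ φ, GeoFrob v φ → V.tr φ = av M v ∧
        LinearMap.det (V.ρ φ) = (Ideal.absNorm v.asIdeal : PadicAlgCl p)

/-- The `L`-functions of all twists of `R` by characters of finite order with the determinant of `V`
have a meromorphic continuation. -/
def TwistsContinue (θ : PadicAlgCl p ≃+* ℂ) (V R : Rep K (PadicAlgCl p)) : Prop :=
  ∀ χ : GK K →* (PadicAlgCl p)ˣ, IsOpen (χ.ker : Set (GK K)) →
    (∀ g, (χ g : PadicAlgCl p) ^ 2 * LinearMap.det (R.ρ g) = LinearMap.det (V.ρ g)) →
    TwistMeromorphic θ R χ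

end

end Pool.Agent.U707.LI
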