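import Pool.Agent.U707.LI.Main
import Pool.Agent.K1H20.PA.B1
import Pool.Agent.W352.ChAbs.Cnt

/-! The general theorems. -/

set_option autoImplicit false

open NumberField Filter Topology IsDedekindDomain Module Pool.Agent.W401.Cheb

namespace Pool.Agent.U707.LI

theorem PosDensity.mono {K : Type} [Field K] [NumberField K]
    {P Q : Set (HeightOneSpectrum (𝓞 K))} (hP : PosDensity P) {B : Set (HeightOneSpectrum (𝓞 K))}
    (hB : B.Finite) (h : ∀ v ∈ P, v ∉ B → v ∈ Q) : PosDensity Q := by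
  classical
  obtain ⟨δ, hδ, hP⟩ := hP
  refine ⟨δ / 2, by positivity, ?_⟩
  have h1 : ∀ᶠ N : ℕ in atTop, (B.ncard : ℝ) ≤ δ / 2 * (Nat.primeCounting N : ℝ) := by
    have h7 : Filter.Tendsto (fun n : ℕ => δ / 2 * (Nat.primeCounting n : ℝ)) Filter.atTop
        Filter.atTop :=
      (tendsto_natCast_atTop_atTop.comp Nat.tendsto_primeCounting).const_mul_atTop (by positivity)
    exact h7.eventually_ge_atTop (B.ncard : ℝ)
  refine (hP.and_eventually h1).mono ?_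
  rintro N ⟨h2, h3⟩
  have hfin : ∀ X : Set (HeightOneSpectrum (𝓞 K)),
      {v : HeightOneSpectrum (𝓞 K) | Ideal.absNorm v.asIdeal ≤ N ∧ v ∈ X}.Finite := fun X =>
    (Pool.Agent.W352.ChAbs.finite_le (K := K) N).subset fun v hv => hv.1
  have hcard : ∀ X : Set (HeightOneSpectrum (𝓞 K)),
      Nat.card {v : HeightOneSpectrum (𝓞 K) // Ideal.absNorm v.asIdeal ≤ N ∧ v ∈ X} =
      {v : HeightOneSpectrum (𝓞 K) | Ideal.absNorm v.asIdeal ≤ N ∧ v ∈ X}.ncard := fun X => rfl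
  have h4 : {v : HeightOneSpectrum (𝓞 K) | Ideal.absNorm v.asIdeal ≤ N ∧ v ∈ P} ⊆
      {v : HeightOneSpectrum (𝓞 K) | Ideal.absNorm v.asIdeal ≤ N ∧ v ∈ Q} ∪ B := by
    rintro v ⟨h5, h6⟩
    by_cases hv : v ∈ B
    · exact Or.inr hv
    · exact Or.inl ⟨h5, h v h6 hv⟩
  have h5 := (Set.ncard_le_ncard h4 ((hfin Q).union hB)).trans (Set.ncard_union_le _ _)
  rw [hcard] at h2 ⊢
  have h6 : (({v : HeightOneSpectrum (𝓞 K) | Ideal.absNorm v.asIdeal ≤ N ∧ v ∈ P}.ncard : ℕ) : ℝ) ≤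
      ({v : HeightOneSpectrum (𝓞 K) | Ideal.absNorm v.asIdeal ≤ N ∧ v ∈ Q}.ncard : ℝ) +
        (B.ncard : ℝ) := by exact_mod_cast h5
  linarith

section
variable {K : Type} [Field K] {E : Type} [NormedField E]

/-- The representation is not zero, and irreducible as a representation of every open subgroup. -/
def Rep.StronglyIrreducible (R : Rep K E) : Prop :=
  0 < finrank E R.V ∧ ∀ U : Subgroup (GK K), IsOpen (U : Set (GK K)) → ∀ X : Submodule E R.V,
    (∀ g ∈ U, ∀ x ∈ X, R.ρ g x ∈ X) → X = ⊥ ∨ X = ⊤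

theorem Rep.full [IsAlgClosed E] {R : Rep K E} (h : R.StronglyIrreducible)
    (U : Subgroup (GK K)) (hU : IsOpen (U : Set (GK K))) : Full U R.ρ := by
  have : Nontrivial R.V := Module.finrank_pos_iff.1 h.1
  have h1 := Pool.Agent.K1H20.PA.burnside (L := E) (V := R.V) (U.toSubmonoid.map R.ρ) (by
    intro X hX
    refine h.2 U hU X fun g hg x hx => hX _ ?_ x hx
    exact ⟨g, hg, rfl⟩)
  exact h1

theorem Rep.nontriv {R : Rep K E} (h : R.StronglyIrreducible) : Nontrivial R.V :=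
  Module.finrank_pos_iff.1 h.1

end

theorem geo (hH : S_HAAR) (hC : S_CHEB) (hT : S_TRANS) (hI : S_IND) (hF : S_FR) {K : Type}
    [Field K] [NumberField K] {E : Type} [NormedField E] [IsAlgClosed E] (R : Rep K E)
    (hR : R.StronglyIrreducible) {ι : Type} [Fintype ι] (W : ι → Rep K E) (c : ι → E)
    {P : Set (HeightOneSpectrum (𝓞 K))} (hP : PosDensity P)
    (htr : ∀ v ∈ P, ∀ φ, GeoFrob v φ → R.tr φ = ∑ i, c i * (W i).tr φ) :
    ∃ i, c i ≠ 0 ∧ ∃ U : Subgroup (GK K), U.Normal ∧ IsOpen (U : Set (GK K)) ∧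
      SubquotOn U R.ρ (W i).ρ ∧ SubquotOn ⊤ R.ρ (perm U (W i).ρ) := by
  have := R.nontriv hR
  obtain ⟨i, hi, U, hUn, hUo, hs⟩ := indep hH hC hT hI R (fun U hU => R.full hR U hU) W c hP htr
  have hfin : Finite (GK K ⧸ U) := Subgroup.quotient_finite_of_isOpen U hUo
  have hfi : U.FiniteIndex := Subgroup.finiteIndex_of_finite_quotient
  exact ⟨i, hi, U, hUn, hUo, hs, hF (GK K) E U R.V (W i).V R.ρ (W i).ρ hs⟩

theorem twist (hH : S_HAAR) (hC : S_CHEB) (hT : S_TRANS) (hI : S_IND) (hTW : S_TW) {K : Type}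
    [Field K] [NumberField K] {E : Type} [NormedField E] [IsAlgClosed E] (R : Rep K E)
    (hR : R.StronglyIrreducible) {ι : Type} [Fintype ι] (W : ι → Rep K E) (c : ι → E)
    (hd : ∀ i, finrank E (W i).V = finrank E R.V)
    {P : Set (HeightOneSpectrum (𝓞 K))} (hP : PosDensity P)
    (htr : ∀ v ∈ P, ∀ φ, GeoFrob v φ → R.tr φ = ∑ i, c i * (W i).tr φ) :
    ∃ i, c i ≠ 0 ∧ ∃ χ : GK K →* Eˣ, IsOpen (χ.ker : Set (GK K)) ∧
      (∀ g, (W i).tr g = χ g * R.tr g) ∧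
      ∀ g, LinearMap.det ((W i).ρ g) = (χ g : E) ^ finrank E R.V * LinearMap.det (R.ρ g) := by
  have := R.nontriv hR
  obtain ⟨i, hi, U, hUn, hUo, hs⟩ := indep hH hC hT hI R (fun U hU => R.full hR U hU) W c hP htr
  have := hUn
  obtain ⟨χ, e, hχ, he⟩ := hTW (GK K) E U R.V (W i).V R.ρ (W i).ρ (R.full hR U hUo) hs (hd i)
  have hconj : ∀ g, e.conj ((W i).ρ g) = (χ g : E) • R.ρ g := by
    intro g
    ext y
    rw [LinearEquiv.conj_apply, LinearMap.comp_apply, LinearMap.comp_apply, LinearEquiv.coe_coe,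
      LinearEquiv.coe_coe, he, LinearEquiv.apply_symm_apply, LinearMap.smul_apply]
  refine ⟨i, hi, χ, Subgroup.isOpen_mono (fun h hh => ?_) hUo, fun g => ?_, fun g => ?_⟩
  · exact hχ h hh
  · have h1 := LinearMap.trace_conj' ((W i).ρ g) e
    rw [hconj, map_smul, smul_eq_mul] at h1
    exact h1.symm
  · have h1 := LinearMap.det_conj ((W i).ρ g) e
    have h2 : (e : (W i).V →ₗ[E] R.V) ∘ₗ (W i).ρ g ∘ₗ (e.symm : R.V →ₗ[E] (W i).V) =
        (χ g : E) • R.ρ g := by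
      rw [← hconj]
      rfl
    rw [h2, LinearMap.det_smul] at h1
    exact h1.symm

end Pool.Agent.U707.LI
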