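import Pool.Agent.U707.LI.Fin

/-! The theorem on point counts. -/

set_option autoImplicit false

open NumberField Filter Topology IsDedekindDomain Module Pool.Agent.W401.Cheb

namespace Pool.Agent.U707.LI

theorem geoCount (hH : S_HAAR) (hC : S_CHEB) (hT : S_TRANS) (hI : S_IND) (hF : S_FR) {K : Type}
    [Field K] [NumberField K] {E : Type} [NormedField E] [IsAlgClosed E] (R : Rep K E)
    (hR : R.StronglyIrreducible) {κ : Type} [Fintype κ] (d : κ → ℕ) (H : κ → ℕ → Rep K E)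
    (cnt : κ → HeightOneSpectrum (𝓞 K) → ℤ)
    (hcnt : ∃ B : Set (HeightOneSpectrum (𝓞 K)), B.Finite ∧ ∀ v ∉ B, ∀ φ, GeoFrob v φ → ∀ k,
      (cnt k v : E) = ∑ j ∈ Finset.range (2 * d k + 1), (-1) ^ j * (H k j).tr φ)
    {F : Type} [Field F] (τ : F →+* E) (a : HeightOneSpectrum (𝓞 K) → F)
    (ha : ∃ B : Set (HeightOneSpectrum (𝓞 K)), B.Finite ∧ ∀ v ∉ B, ∀ φ, GeoFrob v φ →
      R.tr φ = τ (a v)) (c : κ → F)
    {P : Set (HeightOneSpectrum (𝓞 K))} (hP : PosDensity P)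
    (h : ∀ v ∈ P, a v = ∑ k, c k * cnt k v) :
    ∃ k, c k ≠ 0 ∧ ∃ j ≤ 2 * d k, ∃ U : Subgroup (GK K), U.Normal ∧
      IsOpen (U : Set (GK K)) ∧ SubquotOn ⊤ R.ρ (perm U (H k j).ρ) := by
  classical
  obtain ⟨B, hB, hcnt⟩ := hcnt
  obtain ⟨B', hB', ha⟩ := ha
  have hP' : PosDensity (P \ (B ∪ B')) :=
    hP.mono (hB.union hB') fun v hv hvB => ⟨hv, hvB⟩
  obtain ⟨⟨k, j⟩, hc, U, hUn, hUo, -, hs⟩ := geo hH hC hT hI hF R hR
    (fun x : Σ k, Fin (2 * d k + 1) => H x.1 x.2)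
    (fun x => τ (c x.1) * (-1) ^ (x.2 : ℕ)) hP' (by
      rintro v ⟨hv, hvB⟩ φ hφ
      rw [ha v (fun h => hvB (Or.inr h)) φ hφ, h v hv, map_sum, Fintype.sum_sigma]
      refine Finset.sum_congr rfl fun k _ => ?_
      rw [map_mul, map_intCast, hcnt v (fun h => hvB (Or.inl h)) φ hφ k, Finset.mul_sum,
        Finset.sum_range]
      refine Finset.sum_congr rfl fun j _ => ?_
      ring)
  refine ⟨k, fun h0 => hc ?_, j, by have := j.2; omega, U, hUn, hUo, hs⟩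
  simp only [h0, map_zero, zero_mul]

end Pool.Agent.U707.LI
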