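import Pool.Agent.U707.LI.Stm
import Pool.Agent.W401.Cheb.Frob

/-! Relations between traces on a set of places of positive upper density. -/

set_option autoImplicit false

open NumberField Filter Topology IsDedekindDomain Module Pool.Agent.W401.Cheb

namespace Pool.Agent.U707.LI

/-- A continuous finite dimensional representation of the Galois group of `K` over the normed
field `E`. -/
structure Rep (K : Type) [Field K] (E : Type) [NormedField E] where
  /-- the space -/
  V : Type
  [addCommGroup : AddCommGroup V]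
  [module : Module E V]
  [finite : FiniteDimensional E V]
  /-- the action -/
  ρ : GK K →* Module.End E V
  cont : ∀ (x : V) (f : Module.Dual E V), Continuous fun g => f (ρ g x)

attribute [instance] Rep.addCommGroup Rep.module Rep.finite

section
variable {K : Type} [Field K] {E : Type} [NormedField E]

/-- the trace of `g` -/
noncomputable def Rep.tr (R : Rep K E) (g : GK K) : E := LinearMap.trace E R.V (R.ρ g)

theorem Rep.continuous_tr (R : Rep K E) : Continuous fun g => R.tr g := by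
  classical
  set b := Module.finBasis E R.V with hb
  have h1 : ∀ g, R.tr g = ∑ j, b.coord j (R.ρ g (b j)) := by
    intro g
    unfold Rep.tr
    rw [LinearMap.trace_eq_matrix_trace E b, Matrix.trace]
    refine Finset.sum_congr rfl fun j _ => ?_
    rw [Matrix.diag_apply, LinearMap.toMatrix_apply]
    rfl
  have h2 : (fun g => R.tr g) = fun g => ∑ j, b.coord j (R.ρ g (b j)) := funext h1
  rw [h2]
  exact continuous_finsetSum _ fun j _ => R.cont _ _

theorem Rep.tr_conj (R : Rep K E) (x g : GK K) : R.tr (x * g * x⁻¹) = R.tr g := by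
  unfold Rep.tr
  rw [map_mul, LinearMap.trace_mul_comm, ← map_mul]
  congr 2
  group

end

/-- `φ` is a geometric Frobenius element at the place `v`. -/
def GeoFrob {K : Type} [Field K] [NumberField K] (v : HeightOneSpectrum (𝓞 K)) (φ : GK K) : Prop :=
  IsFrob v φ⁻¹

/-- The set `P` of places of `K` has positive upper density: there is `δ > 0` so that there are at
least `δ π(N)` places `v ∈ P` of norm at most `N`, for infinitely many `N`. -/
def PosDensity {K : Type} [Field K] [NumberField K] (P : Set (HeightOneSpectrum (𝓞 K))) : Prop :=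
  ∃ δ : ℝ, 0 < δ ∧ ∃ᶠ N : ℕ in atTop,
    δ * Nat.primeCounting N ≤
      (Nat.card {v : HeightOneSpectrum (𝓞 K) // Ideal.absNorm v.asIdeal ≤ N ∧ v ∈ P} : ℝ)

theorem coset (hH : S_HAAR) (hC : S_CHEB) (hT : S_TRANS) {K : Type} [Field K] [NumberField K]
    {E : Type} [NormedField E] {ι : Type} [Fintype ι] (R : ι → Rep K E) (c : ι → E)
    {P : Set (HeightOneSpectrum (𝓞 K))} (hP : PosDensity P)
    (htr : ∀ v ∈ P, ∀ φ, GeoFrob v φ → ∑ i, c i * (R i).tr φ = 0) :
    ∃ (x : GK K) (U : Subgroup (GK K)), U.Normal ∧ IsOpen (U : Set (GK K)) ∧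
      ∀ y ∈ U, ∑ i, c i * (R i).tr (x * y) = 0 := by
  classical
  obtain ⟨δ, hδ, hP⟩ := hP
  set C : Set (GK K) := {σ | ∑ i, c i * (R i).tr σ⁻¹ = 0} with hCdef
  have hCc : IsClosed C := by
    refine isClosed_eq ?_ continuous_const
    exact continuous_finsetSum _ fun i _ =>
      continuous_const.mul ((R i).continuous_tr.comp continuous_inv)
  have hCconj : ∀ g ∈ C, ∀ x : GK K, x * g * x⁻¹ ∈ C := by
    intro g hg x
    have h1 : (x * g * x⁻¹)⁻¹ = x * g⁻¹ * x⁻¹ := by group
    simp only [hCdef, Set.mem_ofPred_eq, h1, Rep.tr_conj]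
    exact hg
  have hPf : ∃ᶠ N : ℕ in atTop, δ ≤ dens (fun v => v ∈ P) N := by
    have h0 : ∀ᶠ N : ℕ in atTop, 0 < Nat.primeCounting N :=
      Nat.tendsto_primeCounting.eventually_gt_atTop 0
    refine (hP.and_eventually h0).mono ?_
    rintro N ⟨h1, h2⟩
    unfold dens
    rw [le_div_iff₀ (by exact_mod_cast h2)]
    exact h1
  have hfr : ∀ v ∈ P, ∃ g ∈ C, IsFrob v g := by
    intro v hv
    obtain ⟨σ, hσ⟩ := Pool.Agent.W401.Frob.exists_frob v
    refine ⟨σ, htr v hv σ⁻¹ ?_, hσ⟩
    unfold GeoFrob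
    rwa [inv_inv]
  have hcard := hC K C hCconj P δ hPf hfr
  obtain ⟨m, hm⟩ := hT (GK K) E ι (fun i => (R i).V) (fun i => (R i).ρ) c
  obtain ⟨g, U, hUn, hUo, hU⟩ := hH (GK K) C hCc δ hδ hcard m
  obtain ⟨h, hhU, hh⟩ := hm g⁻¹ U
  obtain ⟨u, hu, hj⟩ := hU (fun j => (h j)⁻¹) fun j => U.inv_mem (hhU j)
  have h1 := hh u⁻¹ (fun j => by
    have h2 := hj j
    simp only [hCdef, Set.mem_ofPred_eq] at h2
    have h3 : (g * (h j)⁻¹ * u)⁻¹ = u⁻¹ * h j * g⁻¹ := by group
    rw [h3] at h2
    exact h2)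
  refine ⟨g⁻¹, U, hUn, hUo, fun y hy => ?_⟩
  have h4 : u * (g⁻¹ * y * g) ∈ U := by
    refine U.mul_mem hu ?_
    have := hUn.conj_mem y hy g⁻¹
    rwa [inv_inv] at this
  have h5 := h1 _ h4
  have h6 : u⁻¹ * (u * (g⁻¹ * y * g)) * g⁻¹ = g⁻¹ * y := by group
  rw [h6] at h5
  exact h5

/-- the linear independence theorem -/
theorem indep (hH : S_HAAR) (hC : S_CHEB) (hT : S_TRANS) (hI : S_IND) {K : Type} [Field K]
    [NumberField K] {E : Type} [NormedField E] (R : Rep K E) [Nontrivial R.V]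
    (hR : ∀ U : Subgroup (GK K), IsOpen (U : Set (GK K)) → Full U R.ρ)
    {ι : Type} [Fintype ι] (W : ι → Rep K E) (c : ι → E)
    {P : Set (HeightOneSpectrum (𝓞 K))} (hP : PosDensity P)
    (htr : ∀ v ∈ P, ∀ φ, GeoFrob v φ → R.tr φ = ∑ i, c i * (W i).tr φ) :
    ∃ i, c i ≠ 0 ∧ ∃ U : Subgroup (GK K), U.Normal ∧ IsOpen (U : Set (GK K)) ∧
      SubquotOn U R.ρ (W i).ρ := by
  classical
  obtain ⟨x, U, hUn, hUo, h⟩ := coset hH hC hT (fun j : Option ι => j.elim R W)
    (fun j : Option ι => j.elim (-1) c) hP (by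
      intro v hv φ hφ
      rw [Fintype.sum_option]
      simp only [Option.elim_none, Option.elim_some]
      rw [htr v hv φ hφ]
      ring)
  have h2 : ∀ y ∈ U, LinearMap.trace E R.V (R.ρ (x * y)) =
      ∑ i, c i * LinearMap.trace E (W i).V ((W i).ρ (x * y)) := by
    intro y hy
    have h3 := h y hy
    rw [Fintype.sum_option] at h3
    simp only [Option.elim_none, Option.elim_some, Rep.tr] at h3
    rw [neg_one_mul, neg_add_eq_zero] at h3
    exact h3
  have := hUn
  obtain ⟨i, hi, hs⟩ := hI (GK K) E U R.V R.ρ ι (fun i => (W i).V) (fun i => (W i).ρ) c x (hR U hUo)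
    h2
  exact ⟨i, hi, U, hUn, hUo, hs⟩

end Pool.Agent.U707.LI
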