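import Pool.Agent.U707.LI.ModP3

/-! Several representations mod `p`. -/

set_option autoImplicit false

open NumberField Filter Topology IsDedekindDomain Module Pool.Agent.W401.Cheb

namespace Pool.Agent.U707.LI

theorem modPMany (hA : S_ALG) (hC : S_CHD) (hE : S_EIG) {K : Type} [Field K] [NumberField K]
    {k : Type} [Field k] [IsAlgClosed k] (h2 : (2 : k) ≠ 0) {ι : Type} [Fintype ι]
    {V : ι → Type} [∀ i, AddCommGroup (V i)] [∀ i, Module k (V i)]
    (hV : ∀ i, finrank k (V i) = 2) (ρ : ∀ i, GK K →* Module.End k (V i))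
    (hρ : ∀ i, LocConst (ρ i)) (hirr : ∀ i, Submodule.span k (Set.range (ρ i)) = ⊤)
    (m : ι → k) (hm : ∀ i, m i ≠ 0)
    (hne : ∀ i j, i ≠ j → ∃ g, LinearMap.trace k (V i) (ρ i g) ≠ LinearMap.trace k (V j) (ρ j g))
    {M : Type} [AddCommGroup M] [Module k M] [FiniteDimensional k M]
    (S : Set (HeightOneSpectrum (𝓞 K))) (H : HeightOneSpectrum (𝓞 K) → Module.End k M)
    (hH : HasGalois S H) (c : M) (l : M →ₗ[k] k)
    {B : Set (HeightOneSpectrum (𝓞 K))} (hB : DensityZero B)
    (h : ∀ v ∉ B, v ∉ S ∧ ∀ σ, IsFrob v σ →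
      ∑ i, m i * LinearMap.trace k (V i) (ρ i σ) = l (H v c)) (i : ι) :
    ∃ c' : M, c' ≠ 0 ∧ ∀ v ∉ S, ∀ σ, IsFrob v σ →
      H v c' = LinearMap.trace k (V i) (ρ i σ) • c' := by
  classical
  obtain ⟨hcomm, T, hTc, hTA, hT1, hTcomm, hTrel, hTv⟩ := hH
  set A : Subalgebra k (Module.End k M) := Algebra.adjoin k (H '' Sᶜ) with hAdef
  have hAc : ∀ a ∈ A, ∀ b ∈ A, a * b = b * a := by
    intro a ha b hb
    have h1 : Commute a b := Algebra.commute_of_mem_adjoin_of_forall_mem_commute hb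
      (fun x hx => (Algebra.commute_of_mem_adjoin_of_forall_mem_commute ha (fun y hy => by
        obtain ⟨v, hv, rfl⟩ := hx
        obtain ⟨w, hw, rfl⟩ := hy
        exact hcomm v hv w hw)).symm)
    exact h1
  let _ : CommRing A := { (inferInstance : Ring A) with
    mul_comm := fun a b => Subtype.ext (hAc a a.2 b b.2) }
  set T' : GK K → A := fun g => ⟨T g, hTA g⟩ with hT'
  have hps : IsPseudo T' := by
    refine ⟨?_, fun g h => ?_, fun g h l => ?_⟩
    · apply Subtype.ext
      exact hT1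
    · apply Subtype.ext
      exact hTcomm g h
    · apply Subtype.ext
      exact hTrel g h l
  set ev : A →ₗ[k] k := l ∘ₗ (LinearMap.applyₗ c) ∘ₗ A.toSubmodule.subtype with hev
  have hev' : ∀ a : A, ev a = l ((a : Module.End k M) c) := fun a => rfl
  obtain ⟨U, hU, hUT⟩ := hTc
  choose U' hU' hUρ using hρ
  have hall : ∀ g, (∑ i, m i * LinearMap.trace k (V i) (ρ i g)) - ev (T' g) = 0 := by
    refine hC K k (fun g => (∑ i, m i * LinearMap.trace k (V i) (ρ i g)) - ev (T' g)) ?_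
      ⟨U ⊓ ⨅ i, U' i, ?_, ?_⟩ B hB ?_
    · intro g x
      have h1 : ∀ i, LinearMap.trace k (V i) (ρ i (x * g * x⁻¹)) =
          LinearMap.trace k (V i) (ρ i g) := by
        intro i
        rw [map_mul (ρ i), LinearMap.trace_mul_comm, ← map_mul (ρ i)]
        congr 2
        group
      have h3 : T' (x * g * x⁻¹) = T' g := by
        apply Subtype.ext
        change T (x * g * x⁻¹) = T g
        rw [hTcomm]
        congr 1
        group
      simp only [h1, h3]
    · rw [Subgroup.coe_inf, Subgroup.coe_iInf]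
      exact hU.inter (isOpen_iInter_of_finite hU')
    · intro g u hu
      have h1 : T' (g * u) = T' g := Subtype.ext (hUT g u hu.1)
      have h3 : ∀ i, ρ i (g * u) = ρ i g := fun i => hUρ i g u ((Subgroup.mem_iInf.1 hu.2) i)
      simp only [h1, h3]
    · intro v hv σ hσ
      have h1 : T σ = H v := hTv v (h v hv).1 σ hσ
      change (∑ i, m i * LinearMap.trace k (V i) (ρ i σ)) - ev (T' σ) = 0
      rw [hev', (h v hv).2 σ hσ, sub_eq_zero]
      change l (H v c) = l (T σ c)
      rw [h1]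
  obtain ⟨φ, hφ⟩ := alg_many hA T' hps h2 ρ hV hirr m hm hne ev
    (fun g => sub_eq_zero.1 (hall g)) i
  obtain ⟨x, hx, hx'⟩ := hE k M A hAc (φ : A →ₐ[k] k)
  refine ⟨x, hx, fun v hv σ hσ => ?_⟩
  have h1 := hx' (T' σ)
  rw [hφ σ] at h1
  have h3 : ((T' σ : A) : Module.End k M) = H v := hTv v hv σ hσ
  rw [h3] at h1
  exact h1

end Pool.Agent.U707.LI
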