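import Pool.Agent.U707.LI.StmP

/-! Representations mod `p` and arbitrary forms. -/

set_option autoImplicit false

open NumberField Filter Topology IsDedekindDomain Module Pool.Agent.W401.Cheb

namespace Pool.Agent.U707.LI

/-- The function `f` on the Galois group is locally constant: it is invariant under translation by
the elements of an open subgroup. -/
def LocConst {K X : Type} [Field K] (f : GK K → X) : Prop :=
  ∃ U : Subgroup (GK K), IsOpen (U : Set (GK K)) ∧ ∀ g, ∀ u ∈ U, f (g * u) = f g

/-- The space `M` of forms (or classes) with the commuting Hecke operators `H v`, `v` not in `S`,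
has Galois representations: there is a locally constant two-dimensional pseudorepresentation with
values in the Hecke algebra, such that the trace of the Frobenius elements at `v` is `H v`. -/
def HasGalois {K k M : Type} [Field K] [NumberField K] [Field k] [AddCommGroup M] [Module k M]
    (S : Set (HeightOneSpectrum (𝓞 K))) (H : HeightOneSpectrum (𝓞 K) → Module.End k M) : Prop :=
  (∀ v ∉ S, ∀ w ∉ S, H v * H w = H w * H v) ∧
    ∃ T : GK K → Module.End k M, LocConst T ∧
      (∀ g, T g ∈ Algebra.adjoin k (H '' Sᶜ)) ∧ T 1 = 2 ∧ (∀ g h, T (g * h) = T (h * g)) ∧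
      (∀ g h l, T g * T h * T l + T (g * h * l) + T (g * l * h) =
        T (g * h) * T l + T (g * l) * T h + T (h * l) * T g) ∧
      ∀ v ∉ S, ∀ σ, IsFrob v σ → T σ = H v

theorem modP (hA : S_ALG) (hC : S_CHD) (hE : S_EIG) {K : Type} [Field K] [NumberField K]
    {k : Type} [Field k] [IsAlgClosed k] (h2 : (2 : k) ≠ 0)
    {V : Type} [AddCommGroup V] [Module k V] (hV : finrank k V = 2)
    (ρ : GK K →* Module.End k V) (hρ : LocConst ρ)
    (hirr : Submodule.span k (Set.range ρ) = ⊤)
    {M : Type} [AddCommGroup M] [Module k M] [FiniteDimensional k M]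
    (S : Set (HeightOneSpectrum (𝓞 K))) (H : HeightOneSpectrum (𝓞 K) → Module.End k M)
    (hH : HasGalois S H) (c : M) (l : M →ₗ[k] k)
    {B : Set (HeightOneSpectrum (𝓞 K))} (hB : DensityZero B)
    (h : ∀ v ∉ B, v ∉ S ∧ ∀ σ, IsFrob v σ → LinearMap.trace k V (ρ σ) = l (H v c)) :
    ∃ c' : M, c' ≠ 0 ∧ ∀ v ∉ S, ∀ σ, IsFrob v σ →
      H v c' = LinearMap.trace k V (ρ σ) • c' := by
  classical
  obtain ⟨hcomm, T, hTc, hTA, hT1, hTcomm, hTrel, hTv⟩ := hH
  set A : Subalgebra k (Module.End k M) := Algebra.adjoin k (H '' Sᶜ) with hAdef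
  have hAc : ∀ a ∈ A, ∀ b ∈ A, a * b = b * a := by
    intro a ha b hb
    have h1 : Commute a b := Algebra.commute_of_mem_adjoin_of_forall_mem_commute hb
      (fun x hx => (Algebra.commute_of_mem_adjoin_of_forall_mem_commute ha (fun y hy => by
        obtain ⟨v, hv, rfl⟩ := hx
        obtain ⟨w, hw, rfl⟩ := hy
        exact hcomm v hv w hw)).symm)
    exact h1
  let _ : CommRing A := { (inferInstance : Ring A) with
    mul_comm := fun a b => Subtype.ext (hAc a a.2 b b.2) }
  set T' : GK K → A := fun g => ⟨T g, hTA g⟩ with hT'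
  have hps : IsPseudo T' := by
    refine ⟨?_, fun g h => ?_, fun g h l => ?_⟩
    · apply Subtype.ext
      exact hT1
    · apply Subtype.ext
      exact hTcomm g h
    · apply Subtype.ext
      exact hTrel g h l
  set ev : A →ₗ[k] k := l ∘ₗ (LinearMap.applyₗ c) ∘ₗ A.toSubmodule.subtype with hev
  have hev' : ∀ a : A, ev a = l ((a : Module.End k M) c) := fun a => rfl
  obtain ⟨U, hU, hUT⟩ := hTc
  obtain ⟨U', hU', hUρ⟩ := hρ
  have hall : ∀ g, LinearMap.trace k V (ρ g) - ev (T' g) = 0 := by
    refine hC K k (fun g => LinearMap.trace k V (ρ g) - ev (T' g)) ?_ ⟨U ⊓ U', ?_, ?_⟩ B hB ?_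
    · intro g x
      have h1 : LinearMap.trace k V (ρ (x * g * x⁻¹)) = LinearMap.trace k V (ρ g) := by
        rw [map_mul, LinearMap.trace_mul_comm, ← map_mul]
        congr 2
        group
      have h3 : T' (x * g * x⁻¹) = T' g := by
        apply Subtype.ext
        change T (x * g * x⁻¹) = T g
        rw [hTcomm]
        congr 1
        group
      simp only [h1, h3]
    · rw [Subgroup.coe_inf]
      exact hU.inter hU'
    · intro g u hu
      have h1 : T' (g * u) = T' g := Subtype.ext (hUT g u hu.1)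
      simp only [h1, hUρ g u hu.2]
    · intro v hv σ hσ
      have h1 : T σ = H v := hTv v (h v hv).1 σ hσ
      change LinearMap.trace k V (ρ σ) - ev (T' σ) = 0
      rw [hev', (h v hv).2 σ hσ, sub_eq_zero]
      change l (H v c) = l (T σ c)
      rw [h1]
  obtain ⟨φ, hφ⟩ := hA (GK K) k A V T' ρ ev h2 hps hV hirr fun g => sub_eq_zero.1 (hall g)
  obtain ⟨x, hx, hx'⟩ := hE k M A hAc (φ : A →ₐ[k] k)
  refine ⟨x, hx, fun v hv σ hσ => ?_⟩
  have h1 := hx' (T' σ)
  rw [hφ σ] at h1
  have h3 : ((T' σ : A) : Module.End k M) = H v := hTv v hv σ hσ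
  rw [h3] at h1
  exact h1

end Pool.Agent.U707.LI
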