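import Pool.Agent.U707.LI.ModP

/-! Sums of forms in several spaces. -/

set_option autoImplicit false

open NumberField Filter Topology IsDedekindDomain Module Pool.Agent.W401.Cheb

namespace Pool.Agent.U707.LI

/-- a locally constant class function takes each value at a Frobenius element outside of `S` -/
theorem exists_frob_value (hC : S_CHD) {K X : Type} [Field K] [NumberField K] (F : GK K → X)
    (hF : LocConst F) (hcl : ∀ g x : GK K, F (x * g * x⁻¹) = F g)
    {S : Set (HeightOneSpectrum (𝓞 K))} (hS : DensityZero S) (g : GK K) :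
    ∃ v ∉ S, ∃ σ, IsFrob v σ ∧ F σ = F g := by
  classical
  by_contra hcon
  push Not at hcon
  obtain ⟨U, hU, hUF⟩ := hF
  have h1 := hC K ℤ (fun x => if F x = F g then 1 else 0) (fun a x => by simp only [hcl])
    ⟨U, hU, fun a u hu => by simp only [hUF a u hu]⟩ S hS
    (fun v hv σ hσ => if_neg (hcon v hv σ hσ)) g
  simp at h1

section
variable {k : Type} [Field k] {J : Type} {M : J → Type} [∀ j, AddCommGroup (M j)]
  [∀ j, Module k (M j)]

/-- the operator on the product given by operators on the factors -/
def diag (f : ∀ j, Module.End k (M j)) : Module.End k (∀ j, M j) :=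
  LinearMap.pi fun j => (f j).comp (LinearMap.proj j)

theorem diag_apply (f : ∀ j, Module.End k (M j)) (x : ∀ j, M j) (j : J) :
    diag f x j = f j (x j) := rfl

theorem diag_mul (f g : ∀ j, Module.End k (M j)) : diag f * diag g = diag fun j => f j * g j :=
  rfl

theorem two_apply {N : Type} [AddCommGroup N] [Module k N] (y : N) :
    (2 : Module.End k N) y = y + y := by
  rw [← one_add_one_eq_two]
  rfl

theorem diag_add (f g : ∀ j, Module.End k (M j)) : diag f + diag g = diag fun j => f j + g j :=
  rfl

end

theorem hasGalois_pi (hC : S_CHD) {K : Type} [Field K] [NumberField K] {k : Type} [Field k]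
    {J : Type} [Fintype J] {M : J → Type} [∀ j, AddCommGroup (M j)] [∀ j, Module k (M j)]
    {S : Set (HeightOneSpectrum (𝓞 K))} (hS : DensityZero S)
    (H : ∀ j, HeightOneSpectrum (𝓞 K) → Module.End k (M j)) (h : ∀ j, HasGalois S (H j)) :
    HasGalois S fun v => diag fun j => H j v := by
  classical
  have h1 : ∀ j, ∃ T : GK K → Module.End k (M j), LocConst T ∧
      (∀ g, T g ∈ Algebra.adjoin k (H j '' Sᶜ)) ∧ T 1 = 2 ∧ (∀ g h, T (g * h) = T (h * g)) ∧
      (∀ g h l, T g * T h * T l + T (g * h * l) + T (g * l * h) =
        T (g * h) * T l + T (g * l) * T h + T (h * l) * T g) ∧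
      ∀ v ∉ S, ∀ σ, IsFrob v σ → T σ = H j v := fun j => (h j).2
  choose T hTc _ hT1 hTcomm hTrel hTv using h1
  have hloc : LocConst fun g => fun j => T j g := by
    choose U hU hUT using hTc
    refine ⟨⨅ j, U j, ?_, fun g u hu => ?_⟩
    · rw [Subgroup.coe_iInf]
      exact isOpen_iInter_of_finite hU
    · funext j
      exact hUT j g u ((Subgroup.mem_iInf.1 hu) j)
  refine ⟨fun v hv w hw => ?_, fun g => diag fun j => T j g, ?_, fun g => ?_, ?_, fun g h => ?_,
    fun g h l => ?_, fun v hv σ hσ => ?_⟩
  · exact congrArg diag (funext fun j => (h j).1 v hv w hw)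
  · obtain ⟨U, hU, hUT⟩ := hloc
    exact ⟨U, hU, fun g u hu => congrArg diag (hUT g u hu)⟩
  · obtain ⟨v, hv, σ, hσ, h2⟩ := exists_frob_value hC (fun g => fun j => T j g) hloc
      (fun g x => by
        funext j
        change T j (x * g * x⁻¹) = T j g
        rw [hTcomm]
        congr 1
        group) hS g
    have h3 : (fun j => T j g) = fun j => H j v := by
      funext j
      rw [← hTv j v hv σ hσ]
      exact (congrFun h2 j).symm
    change diag (fun j => T j g) ∈ _
    rw [h3]
    exact Algebra.subset_adjoin ⟨v, hv, rfl⟩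
  · refine LinearMap.ext fun x => funext fun j => ?_
    change T j 1 (x j) = ((2 : Module.End k (∀ j, M j)) x) j
    rw [hT1 j, two_apply, two_apply]
    rfl
  · exact congrArg diag (funext fun j => hTcomm j g h)
  · exact congrArg diag (funext fun j => hTrel j g h l)
  · exact congrArg diag (funext fun j => hTv j v hv σ hσ)

end Pool.Agent.U707.LI
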