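import Pool.Agent.U707.LI.ModP2

/-! Several representations. -/

set_option autoImplicit false

open NumberField Filter Topology IsDedekindDomain Module Pool.Agent.W401.Cheb

namespace Pool.Agent.U707.LI

/-- the identity of the pseudorepresentations of dimension two, for traces -/
theorem trace_rel {k V : Type} [Field k] [AddCommGroup V] [Module k V] (hV : finrank k V = 2)
    (X Y Z : Module.End k V) :
    LinearMap.trace k V X * LinearMap.trace k V Y * LinearMap.trace k V Z +
      LinearMap.trace k V (X * Y * Z) + LinearMap.trace k V (X * Z * Y) =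
    LinearMap.trace k V (X * Y) * LinearMap.trace k V Z +
      LinearMap.trace k V (X * Z) * LinearMap.trace k V Y +
      LinearMap.trace k V (Y * Z) * LinearMap.trace k V X := by
  have hfd : FiniteDimensional k V := Module.finite_of_finrank_pos (by rw [hV]; norm_num)
  let b : Basis (Fin 2) k V := (Module.finBasis k V).reindex (finCongr hV)
  simp only [LinearMap.trace_eq_matrix_trace k b, LinearMap.toMatrix_mul, Matrix.trace_fin_two,
    Matrix.mul_apply, Fin.sum_univ_two]
  ring

/-- homomorphisms of a product `A × (ι → k)` to `k` -/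
theorem hom_prod {k A ι : Type} [Field k] [CommRing A] [Algebra k A] [Fintype ι]
    (φ : A × (ι → k) →ₐ[k] k) :
    (∃ ψ : A →ₐ[k] k, ∀ a t, φ (a, t) = ψ a) ∨ ∃ i, ∀ a t, φ (a, t) = t i := by
  classical
  have hsplit : ∀ (a : A) (t : ι → k), φ (a, t) = φ (a, 0) + φ (0, t) := by
    intro a t
    rw [← map_add]
    simp
  have h1 : φ (1, 0) + φ (0, 1) = 1 := by
    rw [← hsplit]
    exact map_one φ
  have h00 : φ (0, 0) = 0 := map_zero φ
  have h0 : φ (1, 0) * φ (0, 1) = 0 := by
    rw [← map_mul]
    simpa using h00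
  rcases mul_eq_zero.1 h0 with h | h
  · -- the case of the second factor
    right
    have h2 : φ (0, 1) = 1 := by rw [← h1, h, zero_add]
    have h3 : φ (0, 1) = ∑ i, φ (0, Pi.single i 1) := by
      rw [← map_sum]
      congr 1
      refine Prod.ext ?_ (funext fun j => ?_)
      · rw [Prod.fst_sum]
        simp
      · rw [Prod.snd_sum, Finset.sum_apply]
        simp [Pi.single_apply]
    obtain ⟨i, -, hi⟩ : ∃ i ∈ Finset.univ, φ (0, Pi.single i 1) ≠ 0 := by
      apply Finset.exists_ne_zero_of_sum_ne_zero
      rw [← h3, h2]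
      exact one_ne_zero
    have h4 : φ (0, Pi.single i 1) = 1 := by
      have h5 : φ (0, Pi.single i 1) * φ (0, Pi.single i 1) = φ (0, Pi.single i 1) := by
        rw [← map_mul]
        congr 1
        ext j
        · simp
        · simp [Pi.single_apply]
      exact mul_left_cancel₀ hi (h5.trans (mul_one _).symm)
    refine ⟨i, fun a t => ?_⟩
    have h6 : φ (a, 0) = 0 := by
      have h7 : φ (a, 0) = φ (a, 0) * φ (1, 0) := by
        rw [← map_mul]
        simp
      rw [h7, h, mul_zero]
    have h8 : φ (0, t) = φ (0, t) * φ (0, Pi.single i 1) := by rw [h4, mul_one]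
    rw [hsplit, h6, zero_add, h8, ← map_mul]
    have h9 : ((0, t) : A × (ι → k)) * (0, Pi.single i 1) = t i • (0, Pi.single i 1) := by
      ext j
      · simp
      · by_cases hj : j = i
        · subst hj
          simp
        · simp [Pi.single_apply, hj]
    rw [h9, map_smul, h4, smul_eq_mul, mul_one]
  · left
    have h2 : φ (1, 0) = 1 := by rw [← h1, h, add_zero]
    refine ⟨{ toFun := fun a => φ (a, 0)
              map_one' := h2
              map_mul' := fun a b => by rw [← map_mul]; simp
              map_zero' := map_zero φ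
              map_add' := fun a b => by rw [← map_add]; simp
              commutes' := fun r => by
                have h3 : ((algebraMap k A r, 0) : A × (ι → k)) = r • (1, 0) := by
                  ext j
                  · simp [Algebra.algebraMap_eq_smul_one]
                  · simp
                rw [h3, map_smul, h2, smul_eq_mul, mul_one]
                rfl }, fun a t => ?_⟩
    have h6 : φ (0, t) = 0 := by
      have h7 : φ (0, t) = φ (0, t) * φ (0, 1) := by
        rw [← map_mul]
        simp
      rw [h7, h, mul_zero]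
    rw [hsplit, h6, add_zero]
    rfl

/-- several representations: the algebraic statement -/
theorem alg_many (hA : S_ALG) {G k A : Type} [Group G] [Field k] [IsAlgClosed k] [CommRing A]
    [Algebra k A] [FiniteDimensional k A] (T : G → A) (hT : IsPseudo T) (h2 : (2 : k) ≠ 0)
    {ι : Type} [Fintype ι] {V : ι → Type} [∀ i, AddCommGroup (V i)] [∀ i, Module k (V i)]
    (ρ : ∀ i, G →* Module.End k (V i)) (hV : ∀ i, finrank k (V i) = 2)
    (hirr : ∀ i, Submodule.span k (Set.range (ρ i)) = ⊤) (m : ι → k) (hm : ∀ i, m i ≠ 0)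
    (hne : ∀ i j, i ≠ j → ∃ g, LinearMap.trace k (V i) (ρ i g) ≠ LinearMap.trace k (V j) (ρ j g))
    (l : A →ₗ[k] k) (h : ∀ g, ∑ i, m i * LinearMap.trace k (V i) (ρ i g) = l (T g)) (i : ι) :
    ∃ φ : A →ₐ[k] k, ∀ g, φ (T g) = LinearMap.trace k (V i) (ρ i g) := by
  classical
  set T' : G → A × ({j // j ≠ i} → k) := fun g =>
    (T g, fun j => LinearMap.trace k (V j.1) (ρ j.1 g)) with hT'
  have hps : IsPseudo T' := by
    refine ⟨?_, fun g h => ?_, fun g h l => ?_⟩
    · ext j
      · exact hT.one
      · change LinearMap.trace k (V j.1) (ρ j.1 1) = (2 : k)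
        have hfd : FiniteDimensional k (V j.1) :=
          Module.finite_of_finrank_pos (by rw [hV]; norm_num)
        rw [map_one, LinearMap.trace_one, hV]
        norm_num
    · ext j
      · exact hT.comm g h
      · change LinearMap.trace k (V j.1) (ρ j.1 (g * h)) = LinearMap.trace k (V j.1) (ρ j.1 (h * g))
        rw [map_mul (ρ j.1), map_mul (ρ j.1), LinearMap.trace_mul_comm]
    · ext j
      · exact hT.rel g h l
      · have h1 := trace_rel (hV j.1) (ρ j.1 g) (ρ j.1 h) (ρ j.1 l)
        simp only [← map_mul] at h1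
        exact h1
  set l' : A × ({j // j ≠ i} → k) →ₗ[k] k := (m i)⁻¹ • (l.comp (LinearMap.fst k A _) -
    (∑ j : {j // j ≠ i}, m j.1 • LinearMap.proj j).comp (LinearMap.snd k A _)) with hl'
  have hrel : ∀ g, LinearMap.trace k (V i) (ρ i g) = l' (T' g) := by
    intro g
    have h1 : l' (T' g) = (m i)⁻¹ * (l (T g) -
        ∑ j : {j // j ≠ i}, m j.1 * LinearMap.trace k (V j.1) (ρ j.1 g)) := by
      rw [hl', LinearMap.smul_apply, smul_eq_mul, LinearMap.sub_apply, LinearMap.comp_apply,
        LinearMap.comp_apply, LinearMap.sum_apply]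
      rfl
    have h3 : ∑ j, m j * LinearMap.trace k (V j) (ρ j g) =
        m i * LinearMap.trace k (V i) (ρ i g) +
          ∑ j : {j // j ≠ i}, m j.1 * LinearMap.trace k (V j.1) (ρ j.1 g) := by
      rw [← Finset.add_sum_erase Finset.univ _ (Finset.mem_univ i)]
      congr 1
      exact (Finset.sum_subtype (Finset.univ.erase i) (fun x => by simp) _)
    rw [h1, ← h g, h3, add_sub_cancel_right, ← mul_assoc, inv_mul_cancel₀ (hm i), one_mul]
  obtain ⟨φ, hφ⟩ := hA G k (A × ({j // j ≠ i} → k)) (V i) T' (ρ i) l' h2 hps (hV i) (hirr i) hrel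
  rcases hom_prod φ with ⟨ψ, hψ⟩ | ⟨j, hj⟩
  · refine ⟨ψ, fun g => ?_⟩
    rw [← hφ g]
    exact (hψ _ _).symm
  · exfalso
    obtain ⟨g, hg⟩ := hne i j.1 (fun h => j.2 h.symm)
    apply hg
    rw [← hφ g]
    exact hj _ _

end Pool.Agent.U707.LI
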