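import Pool.Agent.U707.LI.Geo

/-! Weights. -/

set_option autoImplicit false

open NumberField Filter Topology IsDedekindDomain Module Pool.Agent.W401.Cheb

namespace Pool.Agent.U707.LI

variable {K : Type} [Field K] [NumberField K]

/-- `R` is pure of weight `w` for the isomorphism `θ` of the coefficient field with `ℂ`: at almost
all places `v` all eigenvalues of the Frobenius elements have the absolute value `Nv ^ (w / 2)`. -/
def Rep.IsPure {E : Type} [NormedField E] (θ : E ≃+* ℂ) (R : Rep K E) (w : ℤ) : Prop :=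
  ∃ B : Set (HeightOneSpectrum (𝓞 K)), B.Finite ∧ ∀ v ∉ B, ∀ φ, GeoFrob v φ → ∀ α : E,
    Module.End.HasEigenvalue (R.ρ φ) α → ‖θ α‖ ^ 2 = (Ideal.absNorm v.asIdeal : ℝ) ^ w

section lin
variable {E V W : Type} [Field E] [AddCommGroup V] [Module E V] [AddCommGroup W]
  [Module E W] [FiniteDimensional E V] [FiniteDimensional E W]

/-- the eigenvalues of a power -/
theorem eig_pow [IsAlgClosed E] (T : Module.End E V) (n : ℕ) {β : E}
    (h : Module.End.HasEigenvalue (T ^ n) β) :
    ∃ α, Module.End.HasEigenvalue T α ∧ α ^ n = β := by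
  obtain ⟨α, hα, h1⟩ := (Module.End.hasEigenvalue_iff_mem_spectrum.1 h |>
    fun h => by
      have h2 := spectrum.map_polynomial_aeval_of_nonempty (𝕜 := E) T (Polynomial.X ^ n)
        (by
          have : Nontrivial V := by
            obtain ⟨x, hx⟩ := (Module.End.hasEigenvalue_iff_mem_spectrum.2 h).exists_hasEigenvector
            exact ⟨x, 0, hx.2⟩
          exact spectrum.nonempty_of_isAlgClosed_of_finiteDimensional E T)
      rw [map_pow, Polynomial.aeval_X] at h2
      rw [h2] at h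
      exact h)
  refine ⟨α, Module.End.hasEigenvalue_iff_mem_spectrum.2 hα, ?_⟩
  simpa using h1

/-- eigenvalues of a quotient of a stable subspace -/
theorem eig_quot (S : Module.End E V) (T : Module.End E W) (B : Submodule E W) (f : B →ₗ[E] V)
    (hf : Function.Surjective f) (h : ∀ x : B, ∃ y : B, (y : W) = T x ∧ f y = S (f x)) {β : E}
    (hβ : Module.End.HasEigenvalue S β) : Module.End.HasEigenvalue T β := by
  classical
  by_contra hcon
  have hinj : Function.Injective (T - algebraMap E (Module.End E W) β) := by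
    rw [← LinearMap.ker_eq_bot]
    by_contra h0
    apply hcon
    rw [Module.End.hasEigenvalue_iff, Module.End.eigenspace_def]
    exact h0
  -- the restriction to B
  have hB : ∀ x ∈ B, (T - algebraMap E (Module.End E W) β) x ∈ B := by
    intro x hx
    obtain ⟨y, hy, -⟩ := h ⟨x, hx⟩
    rw [LinearMap.sub_apply, Module.algebraMap_end_apply]
    refine B.sub_mem ?_ (B.smul_mem β hx)
    have : T x = y := hy.symm
    rw [this]
    exact y.2
  set T' : Module.End E B := (T - algebraMap E (Module.End E W) β).restrict hB with hT'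
  have hT'inj : Function.Injective T' := by
    intro x y hxy
    apply Subtype.ext
    apply hinj
    exact congrArg Subtype.val hxy
  have hT'surj : Function.Surjective T' := LinearMap.injective_iff_surjective.1 hT'inj
  have hcomm : ∀ x : B, f (T' x) = (S - algebraMap E (Module.End E V) β) (f x) := by
    intro x
    obtain ⟨y, hy, hfy⟩ := h x
    have h1 : T' x = y - β • x := by
      apply Subtype.ext
      rw [hT', LinearMap.coe_restrict_apply, LinearMap.sub_apply, Module.algebraMap_end_apply]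
      simp [hy]
    rw [h1, map_sub, map_smul, hfy, LinearMap.sub_apply, Module.algebraMap_end_apply]
  have hSsurj : Function.Surjective (S - algebraMap E (Module.End E V) β) := by
    intro y
    obtain ⟨x, rfl⟩ := hf y
    obtain ⟨z, rfl⟩ := hT'surj x
    exact ⟨f z, (hcomm z).symm⟩
  have hSinj := LinearMap.injective_iff_surjective.2 hSsurj
  obtain ⟨x, hx⟩ := hβ.exists_hasEigenvector
  apply hx.2
  apply hSinj
  rw [map_zero, LinearMap.sub_apply, Module.algebraMap_end_apply, hx.apply_eq_smul, sub_self]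

end lin

theorem PosDensity.nonempty {P : Set (HeightOneSpectrum (𝓞 K))} (hP : PosDensity P) :
    P.Nonempty := by
  by_contra h0
  rw [Set.not_nonempty_iff_eq_empty] at h0
  obtain ⟨δ, hδ, hP⟩ := hP
  obtain ⟨N, h1, h2⟩ := (hP.and_eventually
    (Nat.tendsto_primeCounting.eventually_gt_atTop 0)).exists
  have h3 : Nat.card {v : HeightOneSpectrum (𝓞 K) // Ideal.absNorm v.asIdeal ≤ N ∧ v ∈ P} = 0 := by
    have : IsEmpty {v : HeightOneSpectrum (𝓞 K) // Ideal.absNorm v.asIdeal ≤ N ∧ v ∈ P} := by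
      refine ⟨fun v => ?_⟩
      exact (Set.eq_empty_iff_forall_notMem.1 h0 v.1) v.2.2
    exact Nat.card_of_isEmpty
  rw [h3] at h1
  have h4 : (0 : ℝ) < Nat.primeCounting N := by exact_mod_cast h2
  have := mul_pos hδ h4
  simp only [Nat.cast_zero] at h1
  linarith

/-- weights are equal -/
theorem weight_eq {E : Type} [NormedField E] [IsAlgClosed E] (θ : E ≃+* ℂ) (R W : Rep K E)
    (hR : 0 < finrank E R.V) {w j : ℤ} (hw : R.IsPure θ w) (hj : W.IsPure θ j)
    {P : Set (HeightOneSpectrum (𝓞 K))} (hP : PosDensity P)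
    (U : Subgroup (GK K)) [U.Normal] (hU : IsOpen (U : Set (GK K))) (hs : SubquotOn U R.ρ W.ρ) :
    w = j := by
  classical
  obtain ⟨B, hB, hw⟩ := hw
  obtain ⟨B', hB', hj⟩ := hj
  have hP' : PosDensity (P \ (B ∪ B')) := hP.mono (hB.union hB') fun v hv hvB => ⟨hv, hvB⟩
  obtain ⟨v, -, hv⟩ := hP'.nonempty
  obtain ⟨σ, hσ⟩ := Pool.Agent.W401.Frob.exists_frob v
  have hφ : GeoFrob v σ⁻¹ := by
    unfold GeoFrob
    rwa [inv_inv]
  have hfin : Finite (GK K ⧸ U) := Subgroup.quotient_finite_of_isOpen U hU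
  obtain ⟨n, hn, hnU⟩ : ∃ n : ℕ, 0 < n ∧ (σ⁻¹) ^ n ∈ U := by
    refine ⟨Nat.card (GK K ⧸ U), Nat.card_pos, ?_⟩
    have h1 : ((QuotientGroup.mk (σ⁻¹) : GK K ⧸ U)) ^ Nat.card (GK K ⧸ U) = 1 := pow_card_eq_one'
    rw [← QuotientGroup.mk_pow, QuotientGroup.eq_one_iff] at h1
    exact h1
  obtain ⟨C, f, hf, hC⟩ := hs
  have hnt : Nontrivial R.V := Module.finrank_pos_iff.1 hR
  obtain ⟨β, hβ⟩ := Module.End.exists_eigenvalue (K := E) ((R.ρ σ⁻¹) ^ n)
  have hβ' : Module.End.HasEigenvalue ((W.ρ σ⁻¹) ^ n) β := by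
    refine eig_quot ((R.ρ σ⁻¹) ^ n) ((W.ρ σ⁻¹) ^ n) C f hf ?_ hβ
    intro x
    obtain ⟨y, h1, h2⟩ := hC _ hnU x
    rw [map_pow] at h1 h2
    exact ⟨y, h1, h2⟩
  obtain ⟨α, hα, hα'⟩ := eig_pow (R.ρ σ⁻¹) n hβ
  obtain ⟨γ, hγ, hγ'⟩ := eig_pow (W.ρ σ⁻¹) n hβ'
  have h1 := hw v (fun h => hv (Or.inl h)) _ hφ α hα
  have h2 := hj v (fun h => hv (Or.inr h)) _ hφ γ hγ
  have h3 : ‖θ α‖ ^ (2 * n) = ‖θ γ‖ ^ (2 * n) := by
    have h4 : ‖θ α‖ ^ n = ‖θ γ‖ ^ n := by
      rw [← norm_pow, ← norm_pow, ← map_pow, ← map_pow, hα', hγ']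
    rw [mul_comm, pow_mul, pow_mul, h4]
  have h5 : ‖θ α‖ ^ 2 = ‖θ γ‖ ^ 2 := by
    rw [pow_mul, pow_mul] at h3
    exact (pow_left_inj₀ (by positivity) (by positivity) hn.ne').1 h3
  rw [h1, h2] at h5
  have hN : 1 < (Ideal.absNorm v.asIdeal : ℝ) := by
    have h6 : 1 < Ideal.absNorm v.asIdeal := by
      have h7 : Ideal.absNorm v.asIdeal ≠ 1 := by
        intro h
        exact v.isPrime.ne_top (Ideal.absNorm_eq_one_iff.1 h)
      have h8 : Ideal.absNorm v.asIdeal ≠ 0 := by
        intro h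
        exact v.ne_bot (Ideal.absNorm_eq_zero_iff.1 h)
      omega
    exact_mod_cast h6
  exact zpow_right_injective₀ (by linarith) hN.ne' h5

end Pool.Agent.U707.LI
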